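import Mathlib

set_option autoImplicit false
set_option linter.unusedSectionVars false

/-! Kneser's theorem in finite abelian groups (following DeVos). -/

open scoped Pointwise

namespace Pool.Agent.Lib_helper30.Kneser

universe u

section core
variable {G : Type u} [AddCommGroup G] [Finite G]

lemma ncard_subset {s t : Set G} (h : s ⊆ t) : s.ncard ≤ t.ncard :=
  Set.ncard_le_ncard h (Set.toFinite t)

lemma ncard_union (s t : Set G) : (s ∪ t).ncard + (s ∩ t).ncard = s.ncard + t.ncard :=
  Set.ncard_union_add_ncard_inter s t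

lemma ncard_disj {s t : Set G} (h : Disjoint s t) : (s ∪ t).ncard = s.ncard + t.ncard :=
  Set.ncard_union_eq h

lemma ncard_vadd (g : G) (s : Set G) : (g +ᵥ s).ncard = s.ncard := by
  rw [← Set.image_vadd]
  exact Set.ncard_image_of_injective s (add_right_injective g)

lemma subset_add_sub (s : Set G) (K : AddSubgroup G) : s ⊆ s + (K : Set G) := fun x hx =>
  ⟨x, hx, 0, K.zero_mem, add_zero x⟩

lemma add_sub_mono (s : Set G) {K L : AddSubgroup G} (h : L ≤ K) :
    s + (L : Set G) ⊆ s + (K : Set G) := Set.add_subset_add_left h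

/-- closed under addition of `K` -/
lemma closed_of_eq {s : Set G} {K : AddSubgroup G} (h : s + (K : Set G) = s) {x k : G}
    (hx : x ∈ s) (hk : k ∈ K) : x + k ∈ s := by
  rw [← h]; exact ⟨x, hx, k, hk, rfl⟩

lemma eq_of_closed {s : Set G} {K : AddSubgroup G} (h : ∀ x ∈ s, ∀ k ∈ K, x + k ∈ s) :
    s + (K : Set G) = s := by
  apply Set.Subset.antisymm
  · rintro _ ⟨x, hx, k, hk, rfl⟩
    exact h x hx k hk
  · exact subset_add_sub s K

/-- Convergent pairs. -/
def Conv (A B : Set G) (C : Set G) (K : AddSubgroup G) : Prop :=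
  C ⊆ A + B ∧ C.Nonempty ∧ C + (K : Set G) = C ∧
    (A ∩ B).ncard + ((A ∪ B) + (K : Set G)).ncard ≤ C.ncard + (K : Set G).ncard

lemma core {A B : Set G} {n : ℕ}
    (ih : ∀ m < n, ∀ A B : Set G, A.Nonempty → B.Nonempty → (A + B).ncard + A.ncard = m →
      ∃ H : AddSubgroup G, A + B + (H : Set G) = A + B ∧
        (A + (H : Set G)).ncard + (B + (H : Set G)).ncard ≤ (A + B).ncard + (H : Set G).ncard)
    (hn : (A + B).ncard + A.ncard = n) (hne : (A ∩ B).Nonempty) {a' : G} (ha' : a' ∈ A)
    (ha'B : a' ∉ B) (htriv : ∀ K : AddSubgroup G, K ≠ ⊥ → A + B + (K : Set G) ≠ A + B) :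
    A.ncard + B.ncard ≤ (A + B).ncard + 1 := by
  classical
  -- existence of a convergent pair
  have hex : ∃ m : ℕ, ∃ C : Set G, ∃ K : AddSubgroup G, Conv A B C K ∧ (K : Set G).ncard = m := by
    have hsub : (A ∩ B) + (A ∪ B) ⊆ A + B := by
      rintro _ ⟨x, hx, y, hy, rfl⟩
      rcases hy with hy | hy
      · exact ⟨y, hy, x, hx.2, add_comm y x⟩
      · exact ⟨x, hx.1, y, hy, rfl⟩
    have hlt : (A ∩ B).ncard < A.ncard := by
      apply Set.ncard_lt_ncard _ (Set.toFinite A)
      refine ⟨Set.inter_subset_left, fun h => ha'B (h ha').2⟩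
    obtain ⟨H, h1, h2⟩ := ih (((A ∩ B) + (A ∪ B)).ncard + (A ∩ B).ncard)
      (by have := ncard_subset hsub; omega) (A ∩ B) (A ∪ B) hne ⟨a', Or.inl ha'⟩ rfl
    refine ⟨_, (A ∩ B) + (A ∪ B), H, ⟨hsub, ?_, h1, ?_⟩, rfl⟩
    · obtain ⟨x, hx⟩ := hne
      exact ⟨x + x, x, hx, x, Or.inl hx.1, rfl⟩
    · have := ncard_subset (subset_add_sub (A ∩ B) H)
      omega
  obtain ⟨C, K, hCK, hKm⟩ := Nat.find_spec hex
  have hmin : ∀ (C' : Set G) (K' : AddSubgroup G), Conv A B C' K' →
      (K : Set G).ncard ≤ (K' : Set G).ncard := by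
    intro C' K' h'
    rw [hKm]
    exact Nat.find_min' hex ⟨C', K', h', rfl⟩
  obtain ⟨hCsub, hCne, hCK2, hC⟩ := hCK
  by_cases hKbot : K = ⊥
  · subst hKbot
    have h1 : (A ∪ B) + ((⊥ : AddSubgroup G) : Set G) = A ∪ B := by simp
    have h2 : (((⊥ : AddSubgroup G) : Set G)).ncard = 1 := by simp
    rw [h1, h2] at hC
    have h3 := ncard_union A B
    have h4 := ncard_subset hCsub
    omega
  exfalso
  -- a coset not contained in `A + B`
  obtain ⟨a, ha, b, hb, k, hk, hg⟩ : ∃ a ∈ A, ∃ b ∈ B, ∃ k ∈ K, a + b + k ∉ A + B := by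
    by_contra hcon
    push Not at hcon
    apply htriv K hKbot
    apply eq_of_closed
    rintro _ ⟨a, ha, b, hb, rfl⟩ k hk
    exact hcon a ha b hb k hk
  set g : G := a + b + k with hgdef
  set A1 : Set G := {x | x ∈ A ∧ x - a ∈ K} with hA1
  set A2 : Set G := {x | x ∈ A ∧ x - b ∈ K} with hA2
  set B1 : Set G := {x | x ∈ B ∧ x - b ∈ K} with hB1
  set B2 : Set G := {x | x ∈ B ∧ x - a ∈ K} with hB2
  -- everything in `A + B` lying in the bad coset is away from `C`
  have hCdisj : ∀ x ∈ C, x - (a + b) ∉ K := by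
    intro x hx hxK
    apply hg
    apply hCsub
    have : g = x + (k - (x - (a + b))) := by rw [hgdef]; abel
    rw [this]
    exact closed_of_eq hCK2 hx (K.sub_mem hk hxK)
  have hE1K : ∀ x ∈ A1 + B1, x - (a + b) ∈ K := by
    rintro _ ⟨x, hx, y, hy, rfl⟩
    have : x + y - (a + b) = (x - a) + (y - b) := by abel
    simp only [this]
    exact K.add_mem hx.2 hy.2
  have hE2K : ∀ x ∈ A2 + B2, x - (a + b) ∈ K := by
    rintro _ ⟨x, hx, y, hy, rfl⟩
    have : x + y - (a + b) = (x - b) + (y - a) := by abel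
    simp only [this]
    exact K.add_mem hx.2 hy.2
  have hE1AB : A1 + B1 ⊆ A + B := Set.add_subset_add (fun x hx => hx.1) (fun x hx => hx.1)
  have hE2AB : A2 + B2 ⊆ A + B := Set.add_subset_add (fun x hx => hx.1) (fun x hx => hx.1)
  have hCpos : 0 < C.ncard := (Set.ncard_pos (Set.toFinite C)).2 hCne
  have hcardE : ∀ E : Set G, E ⊆ A + B → (∀ x ∈ E, x - (a + b) ∈ K) →
      (C ∪ E).ncard = C.ncard + E.ncard ∧ E.ncard < (A + B).ncard := by
    intro E hEAB hEK
    have hd : Disjoint C E := by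
      rw [Set.disjoint_left]
      intro x hx hxE
      exact hCdisj x hx (hEK x hxE)
    have h1 := ncard_disj hd
    refine ⟨h1, ?_⟩
    have h2 := ncard_subset (Set.union_subset hCsub hEAB)
    omega
  have haA1 : a ∈ A1 := ⟨ha, by simp [K.zero_mem]⟩
  have hbB1 : b ∈ B1 := ⟨hb, by simp [K.zero_mem]⟩
  -- consequences for a subset of the bad coset
  have hstabK : ∀ (E : Set G) (H : AddSubgroup G), E.Nonempty → (∀ x ∈ E, x - (a + b) ∈ K) →
      E + (H : Set G) = E → H ≤ K := by
    intro E H ⟨e, he⟩ hEK hEH h hh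
    have h1 := hEK _ (closed_of_eq hEH he hh)
    have h2 := hEK _ he
    have : h = (e + h - (a + b)) - (e - (a + b)) := by abel
    rw [this]
    exact K.sub_mem h1 h2
  obtain ⟨H1, hH1a, hH1b⟩ := ih ((A1 + B1).ncard + A1.ncard) (by
    have h1 := (hcardE _ hE1AB hE1K).2
    have h2 : A1.ncard ≤ A.ncard := ncard_subset fun x hx => hx.1
    omega) A1 B1 ⟨a, haA1⟩ ⟨b, hbB1⟩ rfl
  have hH1K : H1 ≤ K := hstabK (A1 + B1) H1 ⟨a + b, Set.add_mem_add haA1 hbB1⟩ hE1K hH1a
  have hkH1 : k ∉ H1 := by
    intro hk1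
    apply hg
    apply hE1AB
    exact closed_of_eq hH1a (Set.add_mem_add haA1 hbB1) hk1
  have hltH1 : ∀ L : AddSubgroup G, L ≤ H1 → (L : Set G).ncard < (K : Set G).ncard := by
    intro L hL
    apply Set.ncard_lt_ncard _ (Set.toFinite _)
    exact ⟨fun x hx => hH1K (hL hx), fun h => hkH1 (hL (h hk))⟩
  -- the defect sets
  have hcover : ∀ (L : AddSubgroup G), L ≤ K → ∀ (c : G),
      (K : Set G).ncard ≤ {x | x - c ∈ K ∧ x ∉ (A ∪ B) + (L : Set G)}.ncard +
        ({x | x ∈ A ∧ x - c ∈ K} + (L : Set G)).ncard +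
        ({x | x ∈ B ∧ x - c ∈ K} + (L : Set G)).ncard := by
    intro L hL c
    have h1 : (K : Set G).ncard = (c +ᵥ (K : Set G)).ncard := (ncard_vadd c _).symm
    rw [h1]
    have h2 : c +ᵥ (K : Set G) ⊆ ({x | x - c ∈ K ∧ x ∉ (A ∪ B) + (L : Set G)} ∪
        ({x | x ∈ A ∧ x - c ∈ K} + (L : Set G))) ∪
        ({x | x ∈ B ∧ x - c ∈ K} + (L : Set G)) := by
      intro x hx
      rw [Set.mem_vadd_set] at hx
      obtain ⟨k', hk', rfl⟩ := hx
      by_cases hY : c +ᵥ k' ∈ (A ∪ B) + (L : Set G)
      · obtain ⟨y, hy, l, hl, hyl⟩ := hY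
        have hyc : y - c ∈ K := by
          have : y - c = k' - l := by
            have : y = (c +ᵥ k') - l := by rw [← hyl]; simp
            rw [this, vadd_eq_add]; abel
          rw [this]
          exact K.sub_mem hk' (hL hl)
        rcases hy with hy | hy
        · exact Or.inl (Or.inr ⟨y, ⟨hy, hyc⟩, l, hl, hyl⟩)
        · exact Or.inr ⟨y, ⟨hy, hyc⟩, l, hl, hyl⟩
      · refine Or.inl (Or.inl ⟨?_, hY⟩)
        rw [vadd_eq_add]
        simpa using hk'
    refine (ncard_subset h2).trans ?_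
    refine (Set.ncard_union_le _ _).trans ?_
    have := Set.ncard_union_le {x | x - c ∈ K ∧ x ∉ (A ∪ B) + (L : Set G)}
      ({x | x ∈ A ∧ x - c ∈ K} + (L : Set G))
    omega
  have hXY : ∀ (L : AddSubgroup G), L ≤ K → ∀ Z : Set G,
      (∀ x ∈ Z, x ∈ (A ∪ B) + (K : Set G) ∧ x ∉ (A ∪ B) + (L : Set G)) →
      ((A ∪ B) + (L : Set G)).ncard + Z.ncard ≤ ((A ∪ B) + (K : Set G)).ncard := by
    intro L hL Z hZ
    have hd : Disjoint ((A ∪ B) + (L : Set G)) Z := by
      rw [Set.disjoint_left]
      intro x hx hxZ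
      exact (hZ x hxZ).2 hx
    rw [← ncard_disj hd]
    exact ncard_subset (Set.union_subset (add_sub_mono _ hL) fun x hx => (hZ x hx).1)
  have hZin : ∀ c ∈ A ∪ B, ∀ x, x - c ∈ K → x ∈ (A ∪ B) + (K : Set G) := by
    intro c hc x hx
    exact ⟨c, hc, x - c, hx, add_sub_cancel c x⟩
  have hcE1 := (hcardE _ hE1AB hE1K).1
  -- first failure of convergence
  have hfail : (C ∪ (A1 + B1)).ncard + (H1 : Set G).ncard <
      (A ∩ B).ncard + ((A ∪ B) + (H1 : Set G)).ncard := by
    by_contra hcon
    push Not at hcon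
    have := hmin (C ∪ (A1 + B1)) H1 ⟨Set.union_subset hCsub hE1AB, hCne.mono
      Set.subset_union_left, ?_, hcon⟩
    · have h2 := hltH1 H1 le_rfl
      omega
    · rw [Set.union_add, hH1a]
      congr 1
      exact eq_of_closed fun x hx h hh => closed_of_eq hCK2 hx (hH1K hh)
  have hZa := hXY H1 hH1K {x | x - a ∈ K ∧ x ∉ (A ∪ B) + (H1 : Set G)}
    (fun x hx => ⟨hZin a (Or.inl ha) x hx.1, hx.2⟩)
  have hZb := hXY H1 hH1K {x | x - b ∈ K ∧ x ∉ (A ∪ B) + (H1 : Set G)}
    (fun x hx => ⟨hZin b (Or.inr hb) x hx.1, hx.2⟩)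
  have hca := hcover H1 hH1K a
  have hcb := hcover H1 hH1K b
  rw [← hA1, ← hB2] at hca
  rw [← hA2, ← hB1] at hcb
  -- case distinctions
  have hdist : a - b ∉ K := by
    intro hab
    have h1 : B2 = B1 := by
      ext x
      simp only [hB1, hB2, Set.mem_ofPred_eq]
      refine and_congr_right fun _ => ?_
      constructor
      · intro h
        have : x - b = (x - a) + (a - b) := by abel
        rw [this]; exact K.add_mem h hab
      · intro h
        have : x - a = (x - b) - (a - b) := by abel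
        rw [this]; exact K.sub_mem h hab
    rw [h1] at hca
    omega
  have hB2ne : B2.Nonempty := by
    by_contra hcon
    rw [Set.not_nonempty_iff_eq_empty] at hcon
    rw [hcon, Set.empty_add, Set.ncard_empty] at hca
    omega
  have hA2ne : A2.Nonempty := by
    by_contra hcon
    rw [Set.not_nonempty_iff_eq_empty] at hcon
    rw [hcon, Set.empty_add, Set.ncard_empty] at hcb
    omega
  -- the second pair
  obtain ⟨H2, hH2a, hH2b⟩ := ih ((A2 + B2).ncard + A2.ncard) (by
    have h1 := (hcardE _ hE2AB hE2K).2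
    have h2 : A2.ncard ≤ A.ncard := ncard_subset fun x hx => hx.1
    omega) A2 B2 hA2ne hB2ne rfl
  have hE2ne : (A2 + B2).Nonempty := hA2ne.add hB2ne
  have hH2K : H2 ≤ K := hstabK _ H2 hE2ne hE2K hH2a
  set L : AddSubgroup G := H1 ⊓ H2 with hL
  have hLK : L ≤ K := inf_le_left.trans hH1K
  set E : Set G := (A1 + B1) ∪ (A2 + B2) with hE
  have hEAB : E ⊆ A + B := Set.union_subset hE1AB hE2AB
  have hEK : ∀ x ∈ E, x - (a + b) ∈ K := by
    rintro x (hx | hx)
    · exact hE1K x hx
    · exact hE2K x hx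
  have hcE := (hcardE _ hEAB hEK).1
  have hfail2 : (C ∪ E).ncard + (L : Set G).ncard <
      (A ∩ B).ncard + ((A ∪ B) + (L : Set G)).ncard := by
    by_contra hcon
    push Not at hcon
    have := hmin (C ∪ E) L ⟨Set.union_subset hCsub hEAB, hCne.mono
      Set.subset_union_left, ?_, hcon⟩
    · have h2 := hltH1 L inf_le_left
      omega
    · apply eq_of_closed
      rintro x (hx | hx | hx) h hh
      · exact Or.inl (closed_of_eq hCK2 hx (hLK hh))
      · exact Or.inr (Or.inl (closed_of_eq hH1a hx hh.1))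
      · exact Or.inr (Or.inr (closed_of_eq hH2a hx hh.2))
  have hca2 := hcover L hLK a
  have hcb2 := hcover L hLK b
  rw [← hA1, ← hB2] at hca2
  rw [← hA2, ← hB1] at hcb2
  have hZab := hXY L hLK ({x | x - a ∈ K ∧ x ∉ (A ∪ B) + (L : Set G)} ∪
      {x | x - b ∈ K ∧ x ∉ (A ∪ B) + (L : Set G)}) (by
    rintro x (hx | hx)
    · exact ⟨hZin a (Or.inl ha) x hx.1, hx.2⟩
    · exact ⟨hZin b (Or.inr hb) x hx.1, hx.2⟩)
  rw [ncard_disj (by
    rw [Set.disjoint_left]
    intro x hx hx2
    apply hdist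
    have : a - b = (x - b) - (x - a) := by abel
    rw [this]
    exact K.sub_mem hx2.1 hx.1)] at hZab
  -- monotonicity of the saturations
  have hL1 : L ≤ H1 := inf_le_left
  have hL2 : L ≤ H2 := inf_le_right
  have m1 := ncard_subset (add_sub_mono A1 hL1)
  have m2 := ncard_subset (add_sub_mono B1 hL1)
  have m3 := ncard_subset (add_sub_mono A2 hL2)
  have m4 := ncard_subset (add_sub_mono B2 hL2)
  -- the intersection of the two sumsets is small
  have hinter : ((A1 + B1) ∩ (A2 + B2)).ncard + (H1 : Set G).ncard + (H2 : Set G).ncard ≤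
      (K : Set G).ncard + (L : Set G).ncard := by
    have h1 : ((g +ᵥ (H1 : Set G)) ∪ (g +ᵥ (H2 : Set G))).ncard + (L : Set G).ncard =
        (H1 : Set G).ncard + (H2 : Set G).ncard := by
      have h2 := ncard_union (g +ᵥ (H1 : Set G)) (g +ᵥ (H2 : Set G))
      rw [← Set.vadd_set_inter, ncard_vadd, ncard_vadd, ncard_vadd] at h2
      rw [← h2]
      congr 2
    have h3 : Disjoint ((A1 + B1) ∩ (A2 + B2)) ((g +ᵥ (H1 : Set G)) ∪ (g +ᵥ (H2 : Set G))) := by
      rw [Set.disjoint_left]
      rintro x ⟨hx1, hx2⟩ (hx | hx)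
      · rw [Set.mem_vadd_set] at hx
        obtain ⟨h, hh, rfl⟩ := hx
        apply hg
        apply hE1AB
        have : g = (g +ᵥ h) + (-h) := by rw [vadd_eq_add]; abel
        rw [this]
        exact closed_of_eq hH1a hx1 (H1.neg_mem hh)
      · rw [Set.mem_vadd_set] at hx
        obtain ⟨h, hh, rfl⟩ := hx
        apply hg
        apply hE2AB
        have : g = (g +ᵥ h) + (-h) := by rw [vadd_eq_add]; abel
        rw [this]
        exact closed_of_eq hH2a hx2 (H2.neg_mem hh)
    have h4 := ncard_disj h3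
    have h5 : ((A1 + B1) ∩ (A2 + B2)) ∪ ((g +ᵥ (H1 : Set G)) ∪ (g +ᵥ (H2 : Set G))) ⊆
        g +ᵥ (K : Set G) := by
      rintro x (hx | hx | hx)
      · rw [Set.mem_vadd_set]
        refine ⟨(x - (a + b)) - k, K.sub_mem (hE1K x hx.1) hk, ?_⟩
        rw [hgdef, vadd_eq_add]; abel
      · rw [Set.mem_vadd_set] at hx ⊢
        obtain ⟨h, hh, rfl⟩ := hx
        exact ⟨h, hH1K hh, rfl⟩
      · rw [Set.mem_vadd_set] at hx ⊢
        obtain ⟨h, hh, rfl⟩ := hx
        exact ⟨h, hH2K hh, rfl⟩
    have h6 := ncard_subset h5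
    rw [ncard_vadd] at h6
    omega
  have hunion := ncard_union (A1 + B1) (A2 + B2)
  rw [← hE] at hunion
  omega

end core

lemma ncard_preimage {G : Type u} [AddCommGroup G] [Finite G] (K : AddSubgroup G)
    (X : Set (G ⧸ K)) :
    ((QuotientAddGroup.mk : G → G ⧸ K) ⁻¹' X).ncard = (K : Set G).ncard * X.ncard := by
  have e := QuotientAddGroup.preimageMkEquivAddSubgroupProdSet K X
  have h := Nat.card_congr e
  rw [Nat.card_prod] at h
  exact h

lemma preimage_image {G : Type u} [AddCommGroup G] [Finite G] {K : AddSubgroup G} {S : Set G}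
    (h : S + (K : Set G) = S) :
    (QuotientAddGroup.mk : G → G ⧸ K) ⁻¹' ((QuotientAddGroup.mk : G → G ⧸ K) '' S) = S := by
  ext x
  constructor
  · rintro ⟨y, hy, hyx⟩
    have h1 : -y + x ∈ K := QuotientAddGroup.eq.1 hyx
    have : x = y + (-y + x) := by abel
    rw [this]
    exact closed_of_eq h hy h1
  · intro hx
    exact ⟨x, hx, rfl⟩

theorem kneser_aux (n : ℕ) : ∀ (G : Type u) [AddCommGroup G] [Finite G] (A B : Set G),
    A.Nonempty → B.Nonempty → (A + B).ncard + A.ncard = n →
      ∃ H : AddSubgroup G, A + B + (H : Set G) = A + B ∧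
        (A + (H : Set G)).ncard + (B + (H : Set G)).ncard ≤
          (A + B).ncard + (H : Set G).ncard := by
  induction n using Nat.strong_induction_on with
  | _ n ih =>
  intro G _ _ A B hA hB hn
  by_cases hst : ∃ K : AddSubgroup G, K ≠ ⊥ ∧ A + B + (K : Set G) = A + B
  · obtain ⟨K, hK, hAB⟩ := hst
    set π : G → G ⧸ K := QuotientAddGroup.mk with hπ
    have hadd : π '' (A + B) = π '' A + π '' B :=
      Set.image_add (QuotientAddGroup.mk' K)
    have hpre : π ⁻¹' (π '' A + π '' B) = A + B := by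
      rw [← hadd]
      exact preimage_image hAB
    have hcardAB : (A + B).ncard = (K : Set G).ncard * (π '' A + π '' B).ncard := by
      rw [← hpre]
      exact ncard_preimage K _
    have hKcard : 2 ≤ (K : Set G).ncard := by
      have h1 : 1 < (K : Set G).ncard := by
        rw [Set.one_lt_ncard (Set.toFinite _)]
        obtain ⟨k, hk, hk0⟩ := K.bot_or_exists_ne_zero.resolve_left hK
        exact ⟨k, hk, 0, K.zero_mem, hk0⟩
      exact h1
    have hpos : 0 < (π '' A + π '' B).ncard := by
      rw [Set.ncard_pos (Set.toFinite _)]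
      exact (hA.image π).add (hB.image π)
    have hA' : (π '' A).ncard ≤ A.ncard := Set.ncard_image_le (Set.toFinite A)
    obtain ⟨H', h1, h2⟩ := ih ((π '' A + π '' B).ncard + (π '' A).ncard) (by
      rw [← hn, hcardAB]
      nlinarith) (G ⧸ K) (π '' A) (π '' B) (hA.image π) (hB.image π) rfl
    have hcomap : ((H'.comap (QuotientAddGroup.mk' K) : AddSubgroup G) : Set G) =
        π ⁻¹' (H' : Set (G ⧸ K)) := rfl
    have hsat : ∀ S : Set G, S + ((H'.comap (QuotientAddGroup.mk' K) : AddSubgroup G) : Set G) =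
        π ⁻¹' (π '' S + (H' : Set (G ⧸ K))) := by
      intro S
      ext x
      constructor
      · rintro ⟨s, hs, h, hh, rfl⟩
        exact ⟨π s, ⟨s, hs, rfl⟩, π h, hh, rfl⟩
      · rintro ⟨_, ⟨s, hs, rfl⟩, h, hh, hx⟩
        refine ⟨s, hs, x - s, ?_, add_sub_cancel s x⟩
        show π (x - s) ∈ H'
        have h3 : π (x - s) = h := by
          have h4 : π (x - s) = π x - π s := rfl
          rw [h4, ← hx]
          show π s + h - π s = h
          abel
        rw [h3]; exact hh
    refine ⟨H'.comap (QuotientAddGroup.mk' K), ?_, ?_⟩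
    · rw [hsat, hadd, h1, hpre]
    · rw [hsat, hsat, hcomap, ncard_preimage, ncard_preimage, ncard_preimage, hcardAB]
      calc (K : Set G).ncard * (π '' A + (H' : Set (G ⧸ K))).ncard +
            (K : Set G).ncard * (π '' B + (H' : Set (G ⧸ K))).ncard
          = (K : Set G).ncard * ((π '' A + (H' : Set (G ⧸ K))).ncard +
            (π '' B + (H' : Set (G ⧸ K))).ncard) := by ring
        _ ≤ (K : Set G).ncard * ((π '' A + π '' B).ncard + (H' : Set (G ⧸ K)).ncard) :=
            Nat.mul_le_mul_left _ h2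
        _ = _ := by ring
  · push Not at hst
    refine ⟨⊥, by simp, ?_⟩
    have e1 : A + ((⊥ : AddSubgroup G) : Set G) = A := by simp
    have e2 : B + ((⊥ : AddSubgroup G) : Set G) = B := by simp
    have e3 : (((⊥ : AddSubgroup G) : Set G)).ncard = 1 := by simp
    rw [e1, e2, e3]
    by_cases hA1 : A.Subsingleton
    · obtain ⟨a, ha⟩ := hA
      have h1 : A = {a} := hA1.eq_singleton_of_mem ha
      rw [h1, Set.singleton_add, Set.ncard_singleton]
      have h2 : (Set.image (fun x => a + x) B).ncard = B.ncard :=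
        Set.ncard_image_of_injective B (add_right_injective a)
      rw [h2]
      omega
    · rw [Set.not_subsingleton_iff] at hA1
      obtain ⟨a, ha, a', ha', haa⟩ := hA1
      obtain ⟨b, hb, hbB⟩ : ∃ b ∈ B, b + (a' - a) ∉ B := by
        by_contra hcon
        push Not at hcon
        have h1 : (a' - a) +ᵥ B = B := by
          apply Set.eq_of_subset_of_ncard_le _ _ (Set.toFinite B)
          · intro x hx
            rw [Set.mem_vadd_set] at hx
            obtain ⟨y, hy, rfl⟩ := hx
            rw [vadd_eq_add, add_comm]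
            exact hcon y hy
          · rw [ncard_vadd]
        have h2 : a' - a ∈ AddAction.stabilizer G B := h1
        apply hst (AddAction.stabilizer G B)
        · intro h3
          rw [h3, AddSubgroup.mem_bot, sub_eq_zero] at h2
          exact haa h2.symm
        · apply eq_of_closed
          rintro _ ⟨x, hx, y, hy, rfl⟩ k hk
          have h4 : k +ᵥ B = B := hk
          refine ⟨x, hx, k + y, ?_, by show x + (k + y) = x + y + k; abel⟩
          rw [← h4]
          exact ⟨y, hy, rfl⟩
      set B' : Set G := (a - b) +ᵥ B with hB'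
      have hsum : A + B' = (a - b) +ᵥ (A + B) := by
        ext x
        constructor
        · rintro ⟨p, hp, q, hq, rfl⟩
          rw [hB', Set.mem_vadd_set] at hq
          obtain ⟨y, hy, rfl⟩ := hq
          rw [Set.mem_vadd_set]
          exact ⟨p + y, ⟨p, hp, y, hy, rfl⟩, by simp only [vadd_eq_add]; abel⟩
        · intro hx
          rw [Set.mem_vadd_set] at hx
          obtain ⟨_, ⟨p, hp, q, hq, rfl⟩, rfl⟩ := hx
          refine ⟨p, hp, (a - b) +ᵥ q, ⟨q, hq, rfl⟩, ?_⟩
          show p + ((a - b) + q) = (a - b) + (p + q)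
          abel
      have hB'card : B'.ncard = B.ncard := ncard_vadd _ _
      have hABcard : (A + B').ncard = (A + B).ncard := by rw [hsum, ncard_vadd]
      have := core (A := A) (B := B') (n := n) (fun m hm A B hA hB h => ih m hm G A B hA hB h)
        (by rw [hABcard]; exact hn) ⟨a, ha, by
          rw [hB', Set.mem_vadd_set]
          exact ⟨b, hb, by rw [vadd_eq_add]; abel⟩⟩ ha' (by
          intro h
          rw [hB', Set.mem_vadd_set] at h
          obtain ⟨y, hy, hya⟩ := h
          apply hbB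
          have : b + (a' - a) = y := by
            rw [← hya, vadd_eq_add]; abel
          rw [this]; exact hy) (by
          intro K hK h
          apply hst K hK
          apply eq_of_closed
          intro x hx k hk
          have h5 : (a - b) +ᵥ x ∈ A + B' := by
            rw [hsum]; exact ⟨x, hx, rfl⟩
          have h6 := closed_of_eq h h5 hk
          rw [hsum, Set.mem_vadd_set] at h6
          obtain ⟨z, hz, hzx⟩ := h6
          have : x + k = z := by
            simp only [vadd_eq_add] at hzx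
            have : (a - b) + z = (a - b) + (x + k) := by rw [hzx]; abel
            exact (add_left_cancel this).symm
          rw [this]; exact hz)
      rw [hB'card, hABcard] at this
      exact this

/-- **Kneser's theorem** in finite abelian groups: there is a subgroup `H` with
`A + B + H = A + B` and `|A + H| + |B + H| ≤ |A + B| + |H|`. -/
theorem kneser {G : Type u} [AddCommGroup G] [Finite G] {A B : Set G}
    (hA : A.Nonempty) (hB : B.Nonempty) :
    ∃ H : AddSubgroup G, A + B + (H : Set G) = A + B ∧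
      (A + (H : Set G)).ncard + (B + (H : Set G)).ncard ≤
        (A + B).ncard + (H : Set G).ncard :=
  kneser_aux _ G A B hA hB rfl

/-- Kneser's theorem in the `Finset` form. -/
theorem kneser_add {G : Type*} [AddCommGroup G] [Fintype G] [DecidableEq G] (A B : Finset G)
    (hA : A.Nonempty) (hB : B.Nonempty) :
    ∃ (H : AddSubgroup G) (S : Finset G), (S : Set G) = H ∧ A + B + S = A + B ∧
      (A + S).card + (B + S).card ≤ (A + B).card + S.card := by
  classical
  obtain ⟨H, h1, h2⟩ := kneser (A := (A : Set G)) (B := (B : Set G)) (by exact_mod_cast hA)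
    (by exact_mod_cast hB)
  obtain ⟨S, hS⟩ : ∃ S : Finset G, (S : Set G) = H :=
    ⟨(Set.toFinite (H : Set G)).toFinset, Set.Finite.coe_toFinset _⟩
  refine ⟨H, S, hS, ?_, ?_⟩
  · rw [← Finset.coe_inj]
    push_cast
    rw [hS]
    exact h1
  · rw [← hS] at h2
    simp only [← Finset.coe_add, Set.ncard_coe_finset] at h2
    exact h2

end Pool.Agent.Lib_helper30.Kneser
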